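import Pool.Agent.Helper10.GO.GoalsP

/-!
# Project GO (MP_6af536_nt): the structure of finitely generated fields (packet EMA)
-/

set_option autoImplicit false

open Polynomial

noncomputable section

namespace Pool.Agent.Helper56.GO

/-- clearing denominators of a value `aeval x q` -/
theorem clear_den (A K : Type) [CommRing A] [IsDomain A] [Field K] [Algebra A K]
    [IsFractionRing A K] (q : K[X]) :
    ∃ (b : A) (Q : A[X]), b ≠ 0 ∧ Q.map (algebraMap A K) = C (algebraMap A K b) * q := by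
  obtain ⟨b, hb, h⟩ := IsLocalization.integerNormalization_spec (nonZeroDivisors A) q
  refine ⟨b, _, nonZeroDivisors.ne_zero hb, h.trans ?_⟩
  rw [← algebraMap_smul K b q, Polynomial.smul_eq_C_mul]

theorem core (A : Type) [CommRing A] [IsDomain A] [IsIntegrallyClosed A] [CharZero A]
    [Algebra A ℂ] [FaithfulSMul A ℂ] (S : Set ℂ) (hS : S.Finite)
    (hA : ∀ s ∈ S, IsAlgebraic A s) :
    ∃ (θ : ℂ) (P : A[X]) (D : A), P.Monic ∧ 0 < P.natDegree ∧ D ≠ 0 ∧
      (∀ Q : A[X], P ∣ Q ↔ aeval θ Q = 0) ∧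
      (∃ U V : A[X], U * P + V * derivative P = C D) ∧
      ∀ s ∈ S, ∃ Q : A[X], algebraMap A ℂ D * s = aeval θ Q := by
  classical
  let K := FractionRing A
  let _ : Algebra K ℂ := FractionRing.liftAlgebra A ℂ
  have : IsScalarTower A K ℂ := FractionRing.isScalarTower_liftAlgebra A ℂ
  have : Finite S := hS
  have hK : ∀ s ∈ S, IsIntegral K s := fun s hs =>
    ((IsFractionRing.isAlgebraic_iff A K ℂ).1 (hA s hs)).isIntegral
  let L := IntermediateField.adjoin K S
  have : FiniteDimensional K L := IntermediateField.finiteDimensional_adjoin hK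
  obtain ⟨α, hα⟩ := Field.exists_primitive_element K L
  -- every element of `S` is a polynomial in `α`
  have hpol : ∀ s ∈ S, ∃ q : K[X], aeval (α : ℂ) q = s := by
    intro s hs
    have h1 : (⟨s, IntermediateField.subset_adjoin K S hs⟩ : L) ∈
        IntermediateField.adjoin K {α} := by
      rw [hα]
      exact IntermediateField.mem_top
    have h2 : (⟨s, IntermediateField.subset_adjoin K S hs⟩ : L) ∈
        (IntermediateField.adjoin K {α}).toSubalgebra := h1
    rw [IntermediateField.adjoin_simple_toSubalgebra_of_isAlgebraic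
      (Algebra.IsAlgebraic.isAlgebraic α), Algebra.adjoin_singleton_eq_range_aeval] at h2
    obtain ⟨q, hq⟩ := h2
    refine ⟨q, ?_⟩
    have h3 : (algebraMap L ℂ) (aeval α q) = s := by
      have := congrArg (algebraMap L ℂ) hq
      exact this
    rw [← h3, ← Polynomial.aeval_algebraMap_apply]
    rfl
  have hαalg : IsAlgebraic A (α : ℂ) := by
    rw [IsFractionRing.isAlgebraic_iff A K ℂ]
    exact (IntermediateField.isAlgebraic_iff.1 (Algebra.IsAlgebraic.isAlgebraic (R := K) α))
  obtain ⟨c, hc, hint⟩ := hαalg.exists_integral_multiple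
  set θ : ℂ := c • (α : ℂ) with hθ
  have hcK : algebraMap A K c ≠ 0 := by
    intro h
    exact hc ((IsFractionRing.injective A K) (by rw [h, map_zero]))
  have hpol2 : ∀ s ∈ S, ∃ q : K[X], aeval θ q = s := by
    intro s hs
    obtain ⟨q, hq⟩ := hpol s hs
    refine ⟨q.comp (C (algebraMap A K c)⁻¹ * X), ?_⟩
    rw [aeval_comp, ← hq]
    congr 2
    rw [map_mul, aeval_C, aeval_X, hθ, Algebra.smul_def, IsScalarTower.algebraMap_apply A K ℂ,
      ← mul_assoc, ← map_mul, inv_mul_cancel₀ hcK, map_one, one_mul]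
  have hmap : (minpoly A θ).map (algebraMap A K) = minpoly K θ :=
    (minpoly.isIntegrallyClosed_eq_field_fractions' K hint).symm
  have hirr : Irreducible (minpoly K θ) := minpoly.irreducible (hint.tower_top)
  obtain ⟨a, b, hab⟩ := hirr.separable
  obtain ⟨u, U, hu, hU⟩ := clear_den A K a
  obtain ⟨v, V, hv, hV⟩ := clear_den A K b
  choose! q hq using hpol2
  have hcl : ∀ s : ℂ, ∃ (e : A) (Q : A[X]), e ≠ 0 ∧
      Q.map (algebraMap A K) = C (algebraMap A K e) * q s := fun s => clear_den A K (q s)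
  choose e Q he hQ using hcl
  let E : A := ∏ s ∈ hS.toFinset, e s
  have hE : E ≠ 0 := Finset.prod_ne_zero_iff.2 fun s _ => he s
  have hinj : Function.Injective (Polynomial.map (algebraMap A K)) :=
    Polynomial.map_injective _ (IsFractionRing.injective A K)
  refine ⟨θ, minpoly A θ, u * v * E, minpoly.monic hint, minpoly.natDegree_pos hint,
    mul_ne_zero (mul_ne_zero hu hv) hE, ?_, ?_, ?_⟩
  · intro Q
    exact (minpoly.isIntegrallyClosed_dvd_iff hint Q).symm
  · refine ⟨C (v * E) * U, C (u * E) * V, hinj ?_⟩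
    simp only [Polynomial.map_add, Polynomial.map_mul, map_C, hU, hV, hmap,
      ← Polynomial.derivative_map]
    have : C (algebraMap A K (u * v * E)) = C (algebraMap A K (u * v * E)) *
        (a * minpoly K θ + b * derivative (minpoly K θ)) := by rw [hab, mul_one]
    rw [this]
    simp only [map_mul]
    ring
  · intro s hs
    refine ⟨C (u * v * ∏ s' ∈ hS.toFinset.erase s, e s') * Q s, ?_⟩
    have h1 : E = e s * ∏ s' ∈ hS.toFinset.erase s, e s' :=
      (Finset.mul_prod_erase hS.toFinset e (hS.mem_toFinset.2 hs)).symm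
    have h2 : aeval θ (Q s) = algebraMap A ℂ (e s) * s := by
      rw [← Polynomial.aeval_map_algebraMap K, hQ, map_mul, aeval_C, hq s hs,
        ← IsScalarTower.algebraMap_apply A K ℂ]
    rw [map_mul (aeval θ), aeval_C, h2, h1]
    simp only [map_mul]
    ring

theorem isAlgebraic_of_adjoin (r : ℕ) (t : Fin r → ℂ) (ht : AlgebraicIndependent ℤ t)
    [Algebra (MvPolynomial (Fin r) ℤ) ℂ]
    (hmap : ∀ a, algebraMap (MvPolynomial (Fin r) ℤ) ℂ a = MvPolynomial.aeval t a) (s : ℂ)
    (hs : IsAlgebraic (Algebra.adjoin ℤ (Set.range t)) s) :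
    IsAlgebraic (MvPolynomial (Fin r) ℤ) s := by
  obtain ⟨p, hp, hps⟩ := hs
  let g : Algebra.adjoin ℤ (Set.range t) →+* MvPolynomial (Fin r) ℤ :=
    (ht.aevalEquiv.symm : Algebra.adjoin ℤ (Set.range t) ≃+* MvPolynomial (Fin r) ℤ)
  have hg : Function.Injective g := ht.aevalEquiv.symm.injective
  refine ⟨p.map g, fun h => hp (Polynomial.map_injective g hg (by rw [h, Polynomial.map_zero])), ?_⟩
  rw [aeval_def, eval₂_map]
  have h1 : (algebraMap (MvPolynomial (Fin r) ℤ) ℂ).comp g =
      algebraMap (Algebra.adjoin ℤ (Set.range t)) ℂ := by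
    ext x
    rw [RingHom.comp_apply, hmap]
    have h2 := ht.algebraMap_aevalEquiv (ht.aevalEquiv.symm x)
    rw [AlgEquiv.apply_symm_apply] at h2
    exact h2.symm
  rw [h1]
  exact hps

theorem exists_basis (S : Set ℂ) (hS : S.Finite) :
    ∃ (r : ℕ) (t : Fin r → ℂ), AlgebraicIndependent ℤ t ∧
      ∀ s ∈ S, IsAlgebraic (Algebra.adjoin ℤ (Set.range t)) s := by
  have h0 : AlgebraicIndepOn ℤ id (∅ : Set ℂ) := by
    rw [AlgebraicIndepOn]
    exact algebraicIndependent_empty_type_iff.2 (RingHom.injective_int _)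
  obtain ⟨u, -, hu⟩ := exists_maximal_algebraicIndependent (R := ℤ) ∅ S (Set.empty_subset _) h0
  have huf : u.Finite := hS.subset hu.prop.2
  have := huf.to_subtype
  let e : Fin (Nat.card u) ≃ u := (Finite.equivFin u).symm
  refine ⟨Nat.card u, fun i => (e i : ℂ), hu.prop.1.comp e e.injective, fun s hs => ?_⟩
  have hr : Set.range (fun i => (e i : ℂ)) = u := by
    ext x
    constructor
    · rintro ⟨i, rfl⟩
      exact (e i).2
    · intro hx
      exact ⟨e.symm ⟨x, hx⟩, congrArg Subtype.val (e.apply_symm_apply ⟨x, hx⟩)⟩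
  rw [hr]
  by_contra hcon
  have hsu : s ∉ u := by
    intro hsu
    exact hcon (isAlgebraic_algebraMap (⟨s, Algebra.subset_adjoin hsu⟩ : Algebra.adjoin ℤ u))
  have h1 : AlgebraicIndepOn ℤ id (insert s u) := by
    refine hu.prop.1.insert ?_
    rw [Set.image_id]
    exact hcon
  exact hsu (hu.2 ⟨h1, Set.insert_subset hs hu.prop.2⟩ (Set.subset_insert s u)
    (Set.mem_insert s u))

open Pool.Agent.Helper10.GO in
theorem ema : S_EMA := by
  intro S hS
  obtain ⟨r, t, ht, hS2⟩ := exists_basis S hS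
  let _ : Algebra (MvPolynomial (Fin r) ℤ) ℂ :=
    ((MvPolynomial.aeval t : MvPolynomial (Fin r) ℤ →ₐ[ℤ] ℂ) :
      MvPolynomial (Fin r) ℤ →+* ℂ).toAlgebra
  have hf : FaithfulSMul (MvPolynomial (Fin r) ℤ) ℂ :=
    (faithfulSMul_iff_algebraMap_injective _ _).2 ht
  obtain ⟨θ, P, D, h1, h2, h3, h4, h5, h6⟩ := core (MvPolynomial (Fin r) ℤ) S hS
    fun s hs => isAlgebraic_of_adjoin r t ht (fun _ => rfl) s (hS2 s hs)
  exact ⟨r, t, θ, P, D, ht, h1, h2, h3, h4, h5, h6⟩

end Pool.Agent.Helper56.GO
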